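import Pool.Agent.TH212.PQDefs

/-!
Differential operators on a smooth affine variety, the right D-module `M(X, i)` of an affine Poisson
variety `X` with a closed embedding `i` into a smooth affine variety `V`, and its underived
pushforward `M(X, i) ⊗_{D(V)} O(V)` to a point.
-/

set_option autoImplicit false

open scoped TensorProduct
open Pool.Agent.TH212

namespace Pool.Agent.Y178.HP

/-- The commutator of a linear operator `P : B → B` with the multiplication by `b`. -/
def commMul {B : Type} [CommRing B] [Algebra ℂ B] (P : B →ₗ[ℂ] B) (b : B) : B →ₗ[ℂ] B :=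
  P ∘ₗ LinearMap.mulLeft ℂ b - LinearMap.mulLeft ℂ b ∘ₗ P

/-- `OrdLE B n P`: the linear map `P : B → B` is a differential operator of order at most `n` (in the
sense of Grothendieck). Operators of order at most `0` commute with all multiplications by elements
of `B`; those of order at most `n + 1` have commutators of order at most `n` with all
multiplications by elements of `B`. -/
def OrdLE (B : Type) [CommRing B] [Algebra ℂ B] : ℕ → (B →ₗ[ℂ] B) → Prop
  | 0, P => ∀ b : B, commMul P b = 0
  | n + 1, P => ∀ b : B, OrdLE B n (commMul P b)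

variable (B : Type) [CommRing B] [Algebra ℂ B]

theorem commMul_apply (P : B →ₗ[ℂ] B) (b x : B) : commMul P b x = P (b * x) - b * P x := rfl

theorem commMul_zero (b : B) : commMul (0 : B →ₗ[ℂ] B) b = 0 := by
  ext x
  simp [commMul_apply]

theorem commMul_add (P Q : B →ₗ[ℂ] B) (b : B) :
    commMul (P + Q) b = commMul P b + commMul Q b := by
  ext x
  simp only [commMul_apply, LinearMap.add_apply]
  ring

theorem commMul_smul (c : ℂ) (P : B →ₗ[ℂ] B) (b : B) :
    commMul (c • P) b = c • commMul P b := by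
  ext x
  simp only [commMul_apply, LinearMap.smul_apply, smul_sub, mul_smul_comm]

theorem commMul_comp (P Q : B →ₗ[ℂ] B) (b : B) :
    commMul (P ∘ₗ Q) b = P ∘ₗ commMul Q b + commMul P b ∘ₗ Q := by
  ext x
  simp only [commMul_apply, LinearMap.add_apply, LinearMap.comp_apply, map_sub]
  ring

theorem ordLE_zero_op (n : ℕ) : OrdLE B n 0 := by
  induction n with
  | zero =>
    intro b
    rw [commMul_zero]
  | succ n ih =>
    intro b
    rw [commMul_zero]
    exact ih

theorem ordLE_add (n : ℕ) : ∀ P Q : B →ₗ[ℂ] B, OrdLE B n P → OrdLE B n Q →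
    OrdLE B n (P + Q) := by
  induction n with
  | zero =>
    intro P Q hP hQ b
    rw [commMul_add, hP b, hQ b, add_zero]
  | succ n ih =>
    intro P Q hP hQ b
    rw [commMul_add]
    exact ih _ _ (hP b) (hQ b)

theorem ordLE_smul (n : ℕ) : ∀ (c : ℂ) (P : B →ₗ[ℂ] B), OrdLE B n P → OrdLE B n (c • P) := by
  induction n with
  | zero =>
    intro c P hP b
    rw [commMul_smul, hP b, smul_zero]
  | succ n ih =>
    intro c P hP b
    rw [commMul_smul]
    exact ih _ _ (hP b)

theorem ordLE_mono_succ (n : ℕ) : ∀ P : B →ₗ[ℂ] B, OrdLE B n P → OrdLE B (n + 1) P := by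
  induction n with
  | zero =>
    intro P hP b
    rw [hP b]
    exact ordLE_zero_op B 0
  | succ n ih =>
    intro P hP b
    exact ih _ (hP b)

theorem ordLE_mono {m n : ℕ} (h : m ≤ n) {P : B →ₗ[ℂ] B} (hP : OrdLE B m P) :
    OrdLE B n P := by
  induction h with
  | refl => exact hP
  | step _ ih => exact ordLE_mono_succ B _ _ ih

theorem ordLE_comp (s : ℕ) : ∀ (m n : ℕ) (_ : m + n = s) (P Q : B →ₗ[ℂ] B),
    OrdLE B m P → OrdLE B n Q → OrdLE B s (P ∘ₗ Q) := by
  induction s with
  | zero =>
    intro m n h P Q hP hQ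
    obtain ⟨rfl, rfl⟩ : m = 0 ∧ n = 0 := by omega
    intro b
    rw [commMul_comp, hP b, hQ b, LinearMap.comp_zero, LinearMap.zero_comp, add_zero]
  | succ s ih =>
    intro m n h P Q hP hQ b
    rw [commMul_comp]
    refine ordLE_add B s _ _ ?_ ?_
    · rcases n with _ | n
      · rw [hQ b, LinearMap.comp_zero]
        exact ordLE_zero_op B s
      · exact ih m n (by omega) _ _ hP (hQ b)
    · rcases m with _ | m
      · rw [hP b, LinearMap.zero_comp]
        exact ordLE_zero_op B s
      · exact ih m n (by omega) _ _ (hP b) hQ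

theorem mulLeft_mem (b : B) : OrdLE B 0 (LinearMap.mulLeft ℂ b) := by
  intro c
  ext x
  simp only [commMul_apply, LinearMap.mulLeft_apply, LinearMap.zero_apply]
  ring

theorem derivation_mem (D : Derivation ℂ B B) : OrdLE B 1 (D : B →ₗ[ℂ] B) := by
  intro b
  have e : commMul (D : B →ₗ[ℂ] B) b = LinearMap.mulLeft ℂ (D b) := by
    ext x
    simp only [commMul_apply, LinearMap.mulLeft_apply, Derivation.coeFn_coe,
      Derivation.leibniz, smul_eq_mul]
    ring
  rw [e]
  exact mulLeft_mem B _

theorem exists_ordLE_add {P Q : B →ₗ[ℂ] B} (hP : ∃ n, OrdLE B n P) (hQ : ∃ n, OrdLE B n Q) :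
    ∃ n, OrdLE B n (P + Q) := by
  obtain ⟨m, hP⟩ := hP
  obtain ⟨n, hQ⟩ := hQ
  exact ⟨max m n, ordLE_add B _ _ _ (ordLE_mono B (le_max_left _ _) hP)
    (ordLE_mono B (le_max_right _ _) hQ)⟩

theorem exists_ordLE_smul (c : ℂ) {P : B →ₗ[ℂ] B} (hP : ∃ n, OrdLE B n P) :
    ∃ n, OrdLE B n (c • P) := by
  obtain ⟨m, hP⟩ := hP
  exact ⟨m, ordLE_smul B m c P hP⟩

/-- The ring `D(V)` of (algebraic) differential operators on `V = Spec B`, as a subspace of
`End_ℂ (B)`; it is closed under composition by `comp_mem`. -/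
def DiffOps : Submodule ℂ (B →ₗ[ℂ] B) where
  carrier := {P | ∃ n, OrdLE B n P}
  add_mem' := exists_ordLE_add B
  zero_mem' := ⟨0, ordLE_zero_op B 0⟩
  smul_mem' := fun c _ hP => exists_ordLE_smul B c hP

theorem comp_mem {d e : B →ₗ[ℂ] B} (hd : d ∈ DiffOps B) (he : e ∈ DiffOps B) :
    d ∘ₗ e ∈ DiffOps B := by
  obtain ⟨m, hd⟩ := hd
  obtain ⟨n, he⟩ := he
  exact ⟨m + n, ordLE_comp B _ m n rfl d e hd he⟩

theorem id_mem : (LinearMap.id : B →ₗ[ℂ] B) ∈ DiffOps B := by
  refine ⟨0, fun b => ?_⟩
  ext x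
  simp [commMul_apply]

theorem mulLeft_mem_DiffOps (b : B) : LinearMap.mulLeft ℂ b ∈ DiffOps B := ⟨0, mulLeft_mem B b⟩

theorem derivation_mem_DiffOps (D : Derivation ℂ B B) : (D : B →ₗ[ℂ] B) ∈ DiffOps B :=
  ⟨1, derivation_mem B D⟩

variable {B} {A : Type} [CommRing A] [Algebra ℂ A]

/-- The generators of the right ideal `J`: the (multiplications by) functions on `V` vanishing on
`X`, and the vector fields on `V` which are tangent to `X` and restrict on `X` to Hamiltonian vector
fields (`i : B → A` is the restriction of functions from `V = Spec B` to `X = Spec A`; tangency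
follows from the displayed condition). -/
def generators (P : PoissonBracket A) (i : B →ₐ[ℂ] A) : Set (B →ₗ[ℂ] B) :=
  {g | ∃ b : B, i b = 0 ∧ g = LinearMap.mulLeft ℂ b} ∪
    {g | ∃ D : Derivation ℂ B B, (∃ a : A, ∀ b : B, i (D b) = P.br a (i b)) ∧
      g = (D : B →ₗ[ℂ] B)}

/-- The right ideal `J` of `D(V)` generated by `generators P i`. -/
def idealJ (P : PoissonBracket A) (i : B →ₐ[ℂ] A) : Submodule ℂ (B →ₗ[ℂ] B) :=
  Submodule.span ℂ {z | ∃ g ∈ generators P i, ∃ d ∈ DiffOps B, z = g ∘ₗ d}

/-- The subspace `J · O(V)` of `O(V)`. -/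
def idealJO (P : PoissonBracket A) (i : B →ₐ[ℂ] A) : Submodule ℂ B :=
  Submodule.span ℂ {x | ∃ j ∈ idealJ P i, ∃ f : B, x = j f}

/-- The dimension of
`HP^{DR}_0(X) = π_0 (M(X)) = M(X, i) ⊗_{D(V)} O(V) = (D(V) / J) ⊗_{D(V)} O(V) = O(V) / (J · O(V))`. -/
noncomputable def dimHPDR0 (P : PoissonBracket A) (i : B →ₐ[ℂ] A) : ℕ :=
  Module.finrank ℂ (B ⧸ idealJO P i)

/-- The dimension of `A / {A, A}`. -/
noncomputable def dimHP0 (P : PoissonBracket A) : ℕ := Module.finrank ℂ (A ⧸ P.brackets)

theorem map_of_mem_J (P : PoissonBracket A) (i : B →ₐ[ℂ] A) {j : B →ₗ[ℂ] B}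
    (hj : j ∈ idealJ P i) : ∀ f : B, i (j f) ∈ P.brackets := by
  unfold idealJ at hj
  induction hj using Submodule.span_induction with
  | mem z hz =>
    obtain ⟨g, hg, d, _, rfl⟩ := hz
    intro f
    rw [LinearMap.comp_apply]
    rcases hg with ⟨b, hb, rfl⟩ | ⟨D, ⟨a, ha⟩, rfl⟩
    · rw [LinearMap.mulLeft_apply, map_mul, hb, zero_mul]
      exact Submodule.zero_mem _
    · rw [Derivation.coeFn_coe, ha]
      exact Submodule.subset_span ⟨a, _, rfl⟩
  | zero =>
    intro f
    rw [LinearMap.zero_apply, map_zero]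
    exact Submodule.zero_mem _
  | add x y _ _ hx hy =>
    intro f
    rw [LinearMap.add_apply, map_add]
    exact Submodule.add_mem _ (hx f) (hy f)
  | smul c x _ hx =>
    intro f
    rw [LinearMap.smul_apply, map_smul]
    exact Submodule.smul_mem _ _ (hx f)

theorem map_of_mem_JO (P : PoissonBracket A) (i : B →ₐ[ℂ] A) {x : B}
    (hx : x ∈ idealJO P i) : i x ∈ P.brackets := by
  unfold idealJO at hx
  induction hx using Submodule.span_induction with
  | mem z hz =>
    obtain ⟨j, hj, f, rfl⟩ := hz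
    exact map_of_mem_J P i hj f
  | zero =>
    rw [map_zero]
    exact Submodule.zero_mem _
  | add x y _ _ hx hy =>
    rw [map_add]
    exact Submodule.add_mem _ hx hy
  | smul c x _ hx =>
    rw [map_smul]
    exact Submodule.smul_mem _ _ hx

theorem gen_mem (P : PoissonBracket A) (i : B →ₐ[ℂ] A) {g : B →ₗ[ℂ] B}
    (hg : g ∈ generators P i) (f : B) : g f ∈ idealJO P i :=
  Submodule.subset_span ⟨g, Submodule.subset_span ⟨g, hg, LinearMap.id, id_mem B,
    (LinearMap.comp_id g).symm⟩, f, rfl⟩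

theorem mem_of_map_eq_zero (P : PoissonBracket A) (i : B →ₐ[ℂ] A) {f : B} (hf : i f = 0) :
    f ∈ idealJO P i := by
  have h := gen_mem P i (Or.inl ⟨f, hf, rfl⟩) 1
  rwa [LinearMap.mulLeft_apply, mul_one] at h

/-- Lifting of derivations `{a, ·}` from `X` to a smooth affine variety `V`. -/
theorem exists_lift [Algebra.FormallySmooth ℂ B] (P : PoissonBracket A) (i : B →ₐ[ℂ] A)
    (hi : Function.Surjective i) (a : A) :
    ∃ D : Derivation ℂ B B, ∀ b : B, i (D b) = P.br a (i b) := by
  let _ : Algebra B A := i.toRingHom.toAlgebra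
  have _ : IsScalarTower ℂ B A := IsScalarTower.of_algebraMap_eq fun c => (i.commutes c).symm
  have hs : ∀ (b : B) (x : A), b • x = i b * x := fun b x => rfl
  let d : Derivation ℂ B A :=
    { toLinearMap := (P.br a).comp i.toLinearMap
      map_one_eq_zero' := by
        change P.br a (i 1) = 0
        have h := P.leibniz a 1 1
        rw [mul_one, mul_one, one_mul] at h
        rw [map_one]
        have h2 : P.br a 1 + 0 = P.br a 1 + P.br a 1 := by rw [add_zero]; exact h
        exact (add_left_cancel h2).symm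
      leibniz' := by
        intro b c
        change P.br a (i (b * c)) = b • P.br a (i c) + c • P.br a (i b)
        rw [map_mul, P.leibniz, hs, hs]
        ring }
  have hd : ∀ b, d b = P.br a (i b) := fun b => rfl
  let q : B →ₗ[B] A := Algebra.linearMap B A
  have hq : Function.Surjective q := hi
  have hq' : ∀ b, q b = i b := fun b => rfl
  have _ : Module.Projective B (Ω[B⁄ℂ]) := inferInstance
  have hg := Module.projective_lifting_property q d.liftKaehlerDifferential hq
  obtain ⟨g, hg⟩ := hg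
  refine ⟨g.compDer (KaehlerDifferential.D ℂ B), fun b => ?_⟩
  have h1 := LinearMap.congr_fun hg (KaehlerDifferential.D ℂ B b)
  rw [LinearMap.comp_apply, Derivation.liftKaehlerDifferential_comp_D, hq', hd] at h1
  exact h1

theorem mem_of_map_mem [Algebra.FormallySmooth ℂ B] (P : PoissonBracket A) (i : B →ₐ[ℂ] A)
    (hi : Function.Surjective i) {z : A} (hz : z ∈ P.brackets) :
    ∀ f : B, i f = z → f ∈ idealJO P i := by
  unfold PoissonBracket.brackets at hz
  have key : ∃ f : B, i f = z ∧ f ∈ idealJO P i := by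
    induction hz using Submodule.span_induction with
    | mem z hz =>
      obtain ⟨a, b, rfl⟩ := hz
      obtain ⟨D, hD⟩ := exists_lift P i hi a
      obtain ⟨g, rfl⟩ := hi b
      exact ⟨D g, hD g, gen_mem P i (Or.inr ⟨D, ⟨a, hD⟩, rfl⟩) g⟩
    | zero => exact ⟨0, map_zero _, Submodule.zero_mem _⟩
    | add x y _ _ hx hy =>
      obtain ⟨f, hf, hf'⟩ := hx
      obtain ⟨g, hg, hg'⟩ := hy
      exact ⟨f + g, by rw [map_add, hf, hg], Submodule.add_mem _ hf' hg'⟩
    | smul c x _ hx =>
      obtain ⟨f, hf, hf'⟩ := hx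
      exact ⟨c • f, by rw [map_smul, hf], Submodule.smul_mem _ _ hf'⟩
  obtain ⟨g, hg, hg'⟩ := key
  intro f hf
  have h : f - g ∈ idealJO P i := mem_of_map_eq_zero P i (by rw [map_sub, hf, hg, sub_self])
  have e : f = (f - g) + g := by ring
  rw [e]
  exact Submodule.add_mem _ h hg'

/-- For every closed embedding `i` of `X` into a smooth affine variety, the dimension of
`HP^{DR}_0(X) = M(X, i) ⊗_{D(V)} O(V)` is that of `A / {A, A}`. -/
theorem dimHPDR0_eq [Algebra.FormallySmooth ℂ B] (P : PoissonBracket A) (i : B →ₐ[ℂ] A)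
    (hi : Function.Surjective i) : dimHPDR0 P i = dimHP0 P := by
  have h : (idealJO P i) ≤ (P.brackets).comap i.toLinearMap := fun x hx => map_of_mem_JO P i hx
  have e : Function.Bijective ((idealJO P i).mapQ P.brackets i.toLinearMap h) := by
    constructor
    · rw [← LinearMap.ker_eq_bot, LinearMap.ker_eq_bot']
      intro x hx
      obtain ⟨f, rfl⟩ := Submodule.Quotient.mk_surjective _ x
      have hx' : (Submodule.Quotient.mk (i f) : A ⧸ P.brackets) = 0 := hx
      rw [Submodule.Quotient.mk_eq_zero] at hx' ⊢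
      exact mem_of_map_mem P i hi hx' f rfl
    · intro y
      obtain ⟨a, rfl⟩ := Submodule.Quotient.mk_surjective _ y
      obtain ⟨f, rfl⟩ := hi a
      exact ⟨Submodule.Quotient.mk f, rfl⟩
  exact (LinearEquiv.ofBijective _ e).finrank_eq

end Pool.Agent.Y178.HP
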