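import Mathlib

/-!
The complex points of an affine variety with the analytic topology, singular cohomology with complex
coefficients, and the vanishing of the higher cohomology of the complex affine plane.
-/

set_option autoImplicit false

open CategoryTheory

namespace Pool.Agent.Y178.HP

/-- The set `V(ℂ)` of complex points of `V = Spec R`. -/
def Points (R : Type) [CommRing R] [Algebra ℂ R] : Type := R →ₐ[ℂ] ℂ

/-- The analytic topology on `V(ℂ)`: the coarsest topology for which all regular functions are
continuous to `ℂ`. -/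
noncomputable instance (R : Type) [CommRing R] [Algebra ℂ R] : TopologicalSpace (Points R) :=
  TopologicalSpace.induced (fun (φ : R →ₐ[ℂ] ℂ) (r : R) => φ r) Pi.topologicalSpace

/-- Singular cohomology `H^k(X; ℂ)` of a topological space: the `k`-th singular homology of `X` with
coefficients in the object `ℂ` of the opposite of the category of complex vector spaces, that is
the `k`-th cohomology of the complex of the `ℂ`-valued singular cochains of `X`. -/
noncomputable def cohomology (k : ℕ) (X : Type) [TopologicalSpace X] : ModuleCat ℂ :=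
  (((AlgebraicTopology.singularHomologyFunctor (ModuleCat.{0} ℂ)ᵒᵖ k).obj
    (Opposite.op (ModuleCat.of ℂ ℂ))).obj (TopCat.of X)).unop

/-- The complex plane as a space of points. -/
noncomputable def plane : (Fin 2 → ℂ) ≃ₜ Points (MvPolynomial (Fin 2) ℂ) where
  toFun x := (MvPolynomial.aeval x : MvPolynomial (Fin 2) ℂ →ₐ[ℂ] ℂ)
  invFun := fun (φ : MvPolynomial (Fin 2) ℂ →ₐ[ℂ] ℂ) i => φ (MvPolynomial.X i)
  left_inv x := by
    funext i
    exact MvPolynomial.aeval_X x i
  right_inv φ := by
    refine MvPolynomial.algHom_ext (A := ℂ) fun i => ?_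
    exact MvPolynomial.aeval_X _ i
  continuous_toFun := by
    rw [continuous_induced_rng, continuous_pi_iff]
    intro r
    change Continuous fun x : Fin 2 → ℂ => MvPolynomial.aeval x r
    simp only [MvPolynomial.aeval_def, MvPolynomial.eval₂_eq_eval_map]
    exact MvPolynomial.continuous_eval _
  continuous_invFun := by
    rw [continuous_pi_iff]
    intro i
    exact (continuous_apply (MvPolynomial.X i)).comp continuous_induced_dom

instance : ContractibleSpace (Points (MvPolynomial (Fin 2) ℂ)) :=
  plane.symm.contractibleSpace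

theorem isZero_cohomology (X : Type) [TopologicalSpace X] [ContractibleSpace X] {k : ℕ}
    (hk : k ≠ 0) : Limits.IsZero (cohomology k X) := by
  let F : TopCat.{0} ⥤ (ModuleCat.{0} ℂ)ᵒᵖ :=
    (AlgebraicTopology.singularHomologyFunctor (ModuleCat.{0} ℂ)ᵒᵖ k).obj
      (Opposite.op (ModuleCat.of ℂ ℂ))
  have hX : Limits.IsZero (F.obj (TopCat.of X)) := by
    obtain ⟨y, ⟨H⟩⟩ := id_nullhomotopic X
    let a : TopCat.of X ⟶ TopCat.of Unit := TopCat.ofHom (ContinuousMap.const X ())
    let b : TopCat.of Unit ⟶ TopCat.of X := TopCat.ofHom (ContinuousMap.const Unit y)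
    have h1 : F.map (𝟙 (TopCat.of X)) = F.map (a ≫ b) :=
      TopCat.Homotopy.congr_homologyMap_singularChainComplexFunctor
        (f := 𝟙 (TopCat.of X)) (g := a ≫ b) H (Opposite.op (ModuleCat.of ℂ ℂ)) k
    have h2 : Limits.IsZero (F.obj (TopCat.of Unit)) :=
      AlgebraicTopology.isZero_singularHomologyFunctor_of_totallyDisconnectedSpace
        (ModuleCat.{0} ℂ)ᵒᵖ k (Opposite.op (ModuleCat.of ℂ ℂ)) (TopCat.of Unit) hk
    rw [Limits.IsZero.iff_id_eq_zero, ← F.map_id, h1, F.map_comp]
    rw [h2.eq_of_tgt (F.map a) 0, Limits.zero_comp]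
  exact hX.unop

theorem finrank_cohomology (X : Type) [TopologicalSpace X] [ContractibleSpace X] {k : ℕ}
    (hk : k ≠ 0) : Module.finrank ℂ (cohomology k X) = 0 := by
  have h := ModuleCat.subsingleton_of_isZero (isZero_cohomology X hk)
  exact Module.finrank_zero_of_subsingleton

end Pool.Agent.Y178.HP
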