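import Pool.Agent.TH212.CuspVar
import Pool.Agent.Y178.HP.DM
import Pool.Agent.Y178.HP.Top

/-!
The zeroth Poisson homology of `ℂ + (x, y) ^ 2` is one-dimensional.
-/

set_option autoImplicit false

open Pool.Agent.TH212
open MvPolynomial

namespace Pool.Agent.Y178.HP

/-- The value at the origin. -/
noncomputable def ev0 : OX →ₗ[ℂ] ℂ where
  toFun f := constantCoeff (f : MvPolynomial (Fin 2) ℂ)
  map_add' f g := by rw [Subalgebra.coe_add, map_add]
  map_smul' c f := by
    rw [Subalgebra.coe_smul, smul_eq_C_mul, map_mul, constantCoeff_C]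
    rfl

theorem ev0_surjective : Function.Surjective ev0 := by
  intro c
  refine ⟨⟨C c, OX.algebraMap_mem c⟩, ?_⟩
  change constantCoeff (C c : MvPolynomial (Fin 2) ℂ) = c
  exact constantCoeff_C _ _

theorem brackets_le : PO.brackets ≤ LinearMap.ker ev0 := by
  unfold PoissonBracket.brackets
  rw [Submodule.span_le]
  rintro _ ⟨a, b, rfl⟩
  rw [SetLike.mem_coe, LinearMap.mem_ker]
  change constantCoeff ((PO.br a b : OX) : MvPolynomial (Fin 2) ℂ) = 0
  rw [PO_val, pb_apply, map_sub, map_mul, map_mul, a.2 0, a.2 1]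
  ring

/-- A product of two polynomials without constant term lies in `OX`. -/
theorem mul_mem_OX {f g : MvPolynomial (Fin 2) ℂ} (hf : constantCoeff f = 0)
    (hg : constantCoeff g = 0) : f * g ∈ OX := by
  intro i
  rw [Derivation.leibniz, map_add, smul_eq_mul, smul_eq_mul, map_mul, map_mul, hf, hg]
  ring

theorem mem_of_left {g : MvPolynomial (Fin 2) ℂ} (hg : g ∈ OX)
    (h : X 0 * pderiv 1 g ∈ OX) : (⟨X 0 * pderiv 1 g, h⟩ : OX) ∈ PO.brackets := by
  have hx : (X 0 * X 0 : MvPolynomial (Fin 2) ℂ) ∈ OX := mul_mem_OX (by simp) (by simp)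
  have e : (⟨X 0 * pderiv 1 g, h⟩ : OX) = (-(1 / 2) : ℂ) • PO.br ⟨X 0 * X 0, hx⟩ ⟨g, hg⟩ := by
    apply Subtype.ext
    rw [Subalgebra.coe_smul, PO_val, pb_apply]
    simp only [Derivation.leibniz, pderiv_X_self, smul_eq_mul, smul_eq_C_mul,
      pderiv_X_of_ne (show (0 : Fin 2) ≠ 1 by decide)]
    have h2 : (C (-(1 / 2) : ℂ) : MvPolynomial (Fin 2) ℂ) * 2 = -1 := by
      have : (2 : MvPolynomial (Fin 2) ℂ) = C 2 := by rw [map_ofNat]
      rw [this, ← C_mul]
      norm_num
    linear_combination (X 0 * pderiv 1 g) * h2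
  rw [e]
  exact Submodule.smul_mem _ _ (Submodule.subset_span ⟨_, _, rfl⟩)

theorem mem_of_right {g : MvPolynomial (Fin 2) ℂ} (hg : g ∈ OX)
    (h : X 1 * pderiv 0 g ∈ OX) : (⟨X 1 * pderiv 0 g, h⟩ : OX) ∈ PO.brackets := by
  have hx : (X 1 * X 1 : MvPolynomial (Fin 2) ℂ) ∈ OX := mul_mem_OX (by simp) (by simp)
  have e : (⟨X 1 * pderiv 0 g, h⟩ : OX) = ((1 / 2) : ℂ) • PO.br ⟨X 1 * X 1, hx⟩ ⟨g, hg⟩ := by
    apply Subtype.ext
    rw [Subalgebra.coe_smul, PO_val, pb_apply]
    simp only [Derivation.leibniz, pderiv_X_self, smul_eq_mul, smul_eq_C_mul,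
      pderiv_X_of_ne (show (1 : Fin 2) ≠ 0 by decide)]
    have h2 : (C ((1 / 2) : ℂ) : MvPolynomial (Fin 2) ℂ) * 2 = 1 := by
      have : (2 : MvPolynomial (Fin 2) ℂ) = C 2 := by rw [map_ofNat]
      rw [this, ← C_mul]
      norm_num
    linear_combination (-X 1 * pderiv 0 g) * h2
  rw [e]
  exact Submodule.smul_mem _ _ (Submodule.subset_span ⟨_, _, rfl⟩)

/-- Every monomial of degree at least two is a combination of brackets. -/
theorem monomial_case (a b : ℕ) (hab : 2 ≤ a + b) (c : ℂ) :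
    ∃ z ∈ PO.brackets, (z : MvPolynomial (Fin 2) ℂ) = C c * (X 0 ^ a * X 1 ^ b) := by
  rcases Nat.eq_zero_or_pos a with rfl | ha
  · -- `x_1 ^ b = x_1 * ∂_0 (x_0 x_1 ^ (b - 1))`
    obtain ⟨b', rfl⟩ : ∃ b', b = b' + 2 := ⟨b - 2, by omega⟩
    have hg : (C c * (X 0 * X 1 ^ (b' + 1)) : MvPolynomial (Fin 2) ℂ) ∈ OX := by
      rw [← mul_assoc]
      exact mul_mem_OX (by simp) (by simp)
    have hd : pderiv 0 (C c * (X 0 * X 1 ^ (b' + 1)) : MvPolynomial (Fin 2) ℂ) =
        C c * X 1 ^ (b' + 1) := by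
      rw [pderiv_C_mul, Derivation.leibniz, Derivation.leibniz_pow, pderiv_X_self,
        pderiv_X_of_ne (show (1 : Fin 2) ≠ 0 by decide)]
      simp
    have hm : X 1 * pderiv 0 (C c * (X 0 * X 1 ^ (b' + 1)) : MvPolynomial (Fin 2) ℂ) ∈ OX := by
      rw [hd]
      exact mul_mem_OX (by simp) (by simp)
    refine ⟨_, mem_of_right hg hm, ?_⟩
    change X 1 * pderiv 0 (C c * (X 0 * X 1 ^ (b' + 1)) : MvPolynomial (Fin 2) ℂ) = _
    rw [hd]
    ring
  · obtain ⟨a', rfl⟩ : ∃ a', a = a' + 1 := ⟨a - 1, by omega⟩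
    have hb : ((b : ℂ) + 1) ≠ 0 := Nat.cast_add_one_ne_zero b
    have hd : pderiv 1 (C (c / (b + 1)) * (X 0 ^ a' * X 1 ^ (b + 1)) : MvPolynomial (Fin 2) ℂ) =
        C c * (X 0 ^ a' * X 1 ^ b) := by
      rw [pderiv_C_mul, Derivation.leibniz, Derivation.leibniz_pow, Derivation.leibniz_pow,
        pderiv_X_self, pderiv_X_of_ne (show (0 : Fin 2) ≠ 1 by decide)]
      simp only [smul_eq_mul, mul_zero, smul_zero, add_zero, mul_one, nsmul_eq_mul,
        Nat.add_sub_cancel]
      have h2 : (C (c / ((b : ℂ) + 1)) : MvPolynomial (Fin 2) ℂ) * ((b + 1 : ℕ) :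
          MvPolynomial (Fin 2) ℂ) = C c := by
        have : ((b + 1 : ℕ) : MvPolynomial (Fin 2) ℂ) = C ((b : ℂ) + 1) := by
          rw [map_add, map_natCast, map_one]
          push_cast
          ring
        rw [this, ← C_mul, div_mul_cancel₀ _ hb]
      linear_combination (X 0 ^ a' * X 1 ^ b) * h2
    have hg : (C (c / (b + 1)) * (X 0 ^ a' * X 1 ^ (b + 1)) : MvPolynomial (Fin 2) ℂ) ∈ OX := by
      rcases Nat.eq_zero_or_pos b with rfl | hb'
      · obtain ⟨a'', rfl⟩ : ∃ a'', a' = a'' + 1 := ⟨a' - 1, by omega⟩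
        rw [← mul_assoc]
        exact mul_mem_OX (by simp) (by simp)
      · obtain ⟨b', rfl⟩ : ∃ b', b = b' + 1 := ⟨b - 1, by omega⟩
        rw [pow_succ, ← mul_assoc, ← mul_assoc]
        exact mul_mem_OX (by simp) (by simp)
    have hm : X 0 * pderiv 1 (C (c / (b + 1)) * (X 0 ^ a' * X 1 ^ (b + 1)) :
        MvPolynomial (Fin 2) ℂ) ∈ OX := by
      rw [hd]
      refine mul_mem_OX (by simp) ?_
      rcases Nat.eq_zero_or_pos b with rfl | hb'
      · obtain ⟨a'', rfl⟩ : ∃ a'', a' = a'' + 1 := ⟨a' - 1, by omega⟩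
        simp
      · obtain ⟨b', rfl⟩ : ∃ b', b = b' + 1 := ⟨b - 1, by omega⟩
        simp
    refine ⟨_, mem_of_left hg hm, ?_⟩
    change X 0 * pderiv 1 (C (c / (b + 1)) * (X 0 ^ a' * X 1 ^ (b + 1)) :
      MvPolynomial (Fin 2) ℂ) = _
    rw [hd]
    ring

theorem ker_le : LinearMap.ker ev0 ≤ PO.brackets := by
  intro f hf
  rw [LinearMap.mem_ker] at hf
  have hf0 : constantCoeff (f : MvPolynomial (Fin 2) ℂ) = 0 := hf
  have hcoe : ∀ m : Fin 2 →₀ ℕ, m 0 + m 1 ≤ 1 →
      coeff m (f : MvPolynomial (Fin 2) ℂ) = 0 := by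
    intro m hm
    have hone : ∀ i : Fin 2, coeff (Finsupp.single i 1) (f : MvPolynomial (Fin 2) ℂ) = 0 := by
      intro i
      have h := f.2 i
      rw [constantCoeff_eq, coeff_pderiv] at h
      simpa using h
    rcases Nat.eq_zero_or_pos (m 0) with h0 | h0
    · rcases Nat.eq_zero_or_pos (m 1) with h1 | h1
      · have e : m = 0 := by
          ext i
          fin_cases i
          · exact h0
          · exact h1
        rw [e, ← constantCoeff_eq]
        exact hf0
      · have e : m = Finsupp.single 1 1 := by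
          ext i
          fin_cases i
          · simpa using h0
          · simp
            omega
        rw [e]
        exact hone 1
    · have e : m = Finsupp.single 0 1 := by
        ext i
        fin_cases i
        · simp
          omega
        · simp
          omega
      rw [e]
      exact hone 0
  have key : ∃ z ∈ PO.brackets, (z : MvPolynomial (Fin 2) ℂ) = f := by
    have h : ∀ s : Finset (Fin 2 →₀ ℕ), (∀ m ∈ s, 2 ≤ m 0 + m 1) →
        ∃ z ∈ PO.brackets, (z : MvPolynomial (Fin 2) ℂ) =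
          ∑ m ∈ s, monomial m (coeff m (f : MvPolynomial (Fin 2) ℂ)) := by
      intro s
      induction s using Finset.induction_on with
      | empty => exact fun _ => ⟨0, Submodule.zero_mem _, by simp⟩
      | insert m s hms ih =>
        intro hs
        obtain ⟨z, hz, hz'⟩ := ih fun m' hm' => hs m' (Finset.mem_insert_of_mem hm')
        obtain ⟨w, hw, hw'⟩ := monomial_case (m 0) (m 1) (hs m (Finset.mem_insert_self _ _))
          (coeff m (f : MvPolynomial (Fin 2) ℂ))
        refine ⟨w + z, Submodule.add_mem _ hw hz, ?_⟩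
        rw [Finset.sum_insert hms, Subalgebra.coe_add, hz', hw', monomial_eq]
        congr 2
        rw [Finsupp.prod_fintype _ _ (fun i => pow_zero _), Fin.prod_univ_two]
    obtain ⟨z, hz, hz'⟩ := h (f : MvPolynomial (Fin 2) ℂ).support (by
      intro m hm
      by_contra hlt
      exact (mem_support_iff.1 hm) (hcoe m (by omega)))
    exact ⟨z, hz, by rw [hz']; exact support_sum_monomial_coeff _⟩
  obtain ⟨z, hz, hz'⟩ := key
  rwa [Subtype.ext hz'] at hz

theorem brackets_eq : PO.brackets = LinearMap.ker ev0 := le_antisymm brackets_le ker_le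

theorem dimHP0_PO : dimHP0 PO = 1 := by
  unfold dimHP0
  have e : (OX ⧸ PO.brackets) ≃ₗ[ℂ] ℂ := (Submodule.quotEquivOfEq _ _ brackets_eq).trans
    (ev0.quotKerEquivOfSurjective ev0_surjective)
  rw [e.finrank_eq, Module.finrank_self]

end Pool.Agent.Y178.HP
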